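import Pool.Agent.KS6_50.BZ.Main
import Pool.Agent.KS6_50.BZ.Paths

set_option autoImplicit false

/-!
# MP_5ac57a_co: the number of stone-and-bone tilings of the `(n+2, 2n+1)`-benzel of every type

Let `n ≥ 1` and leave out one of the three directions of bones, `dir t₀`. A tiling of the
`(n+2, 2n+1)`-benzel by stones of both kinds and by bones of the two other directions
`dir (t₀ + 1)`, `dir (t₀ + 2)` (indices mod 3) has `c + j` left stones, `j + d` bones of direction
`dir (t₀ + 1)`, `2 d + c` bones of direction `dir (t₀ + 2)` and `(n (n - 3)) / 2 + c + j` right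
stones for some `c`, `j`, `d` with `c + j + d = n`. The number of tilings of each of these types is
the number of Schroeder paths from `(0,0)` to `(n,n)` with `j` diagonal steps which end with
exactly `c` vertical steps, and it is
`(2 d + c + j - 1)! (c (c + d + 1) + (c + 1) j) / (j! d! (c + d + 1)!)`.
The number of all these tilings is the large Schroeder number `S_n`.

`IsTiling`, `benzel`, `IsRight`, `IsLeft`, `dir`, `IsBone`, `T112` are in
`Pool/Graph/R_seed8/R730/Bz/Model.lean`, `SchPath`, `largeSchroeder` are in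
`Pool/Graph/R_seed8/R730/Bz/Schroeder.lean`, `rights`, `lefts`, `bones`, `NoBone` are in
`Pool/Agent/KS6_50/BZ/Count.lean` and `FinalRun` is in `Pool/Agent/KS6_50/BZ/Paths.lean`.
-/

namespace Pool.Agent.Results.MP_5ac57a_co.RefinedCount

open Nat Pool.Agent.R730.Bz Pool.Agent.KS6_50.BZ

theorem result (t₀ : Fin 3) (n : ℕ) (hn : 1 ≤ n) :
    (∀ M, IsTiling (NoBone t₀) (benzel ((n : ℤ) + 2) (2 * n + 1)) M →
      ∃ c j d : ℕ, c + j + d = n ∧ lefts M = c + j ∧ bones (t₀ + 1) M = j + d ∧
        bones (t₀ + 2) M = 2 * d + c ∧ bones t₀ M = 0 ∧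
        2 * rights M + 3 * n = n ^ 2 + 2 * (c + j)) ∧
    (∀ c j d : ℕ, c + j + d = n →
      {M | IsTiling (NoBone t₀) (benzel ((n : ℤ) + 2) (2 * n + 1)) M ∧ lefts M = c + j ∧
        bones (t₀ + 1) M = j + d ∧ bones (t₀ + 2) M = 2 * d + c}.ncard
          = {L | L ∈ SchPath n ∧ L.count (1, 1) = j ∧ FinalRun c L}.ncard ∧
      {M | IsTiling (NoBone t₀) (benzel ((n : ℤ) + 2) (2 * n + 1)) M ∧ lefts M = c + j ∧
        bones (t₀ + 1) M = j + d ∧ bones (t₀ + 2) M = 2 * d + c}.ncard
          * (j ! * d ! * (c + d + 1)!)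
        = (2 * d + c + j - 1)! * (c * (c + d + 1) + (c + 1) * j)) ∧
    T112 t₀ ((n : ℤ) + 2) (2 * n + 1) = largeSchroeder n := by
  refine ⟨fun M hM => types t₀ hn hM, fun c j d h => ⟨?_, count_closed t₀ hn c j d h⟩,
    T112_in t₀ hn⟩
  have h1 := count_rat t₀ hn c j d h
  rw [← paths_card c j d n h] at h1
  exact_mod_cast h1

end Pool.Agent.Results.MP_5ac57a_co.RefinedCount
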